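import Pool.Agent.U514.SP.Stm

/-!
# Project SP, package VAL: the values of the layout are the right sums
-/

set_option autoImplicit false

namespace Pool.Agent.U978.SP.VAL

open Finset Pool.Agent.U514.SP

variable {F V : Type} [Field F]

theorem opd_eval (p : Par F V) (e : V ⊕ F) (val : p.Item → MvPolynomial V F) :
    (p.opd e).eval val = Par.ent e := by
  cases e <;> rfl

theorem place_sum (p : Par F V) (f : Fin p.nX → Fin p.nX → F) (n : ℕ) (hn : nnz f ≤ n)
    (φ : Fin p.nX × Fin p.nX → MvPolynomial V F) :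
    ∑ e ∈ range n, ((p.place f e).elim 0 fun q => MvPolynomial.C (f q.1 q.2) * φ q) =
      ∑ q : Fin p.nX × Fin p.nX, MvPolynomial.C (f q.1 q.2) * φ q := by
  classical
  set S : Finset (Fin p.nX × Fin p.nX) := univ.filter fun q : Fin p.nX × Fin p.nX => f q.1 q.2 ≠ 0 with hS
  have hcard : S.card ≤ n := by
    refine le_trans (le_of_eq ?_) hn
    unfold nnz
    rw [hS]
  have h1 : ∑ q : Fin p.nX × Fin p.nX, MvPolynomial.C (f q.1 q.2) * φ q =
      ∑ q ∈ S, MvPolynomial.C (f q.1 q.2) * φ q := by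
    rw [hS, Finset.sum_filter]
    refine Finset.sum_congr rfl fun q _ => ?_
    split_ifs with h
    · rfl
    · rw [not_not] at h
      rw [h, map_zero, zero_mul]
  have hplace : ∀ e : ℕ, p.place f e =
      if h : e < S.card then some (S.equivFin.symm ⟨e, h⟩).1 else none := by
    intro e
    unfold Par.place
    congr!
  have h2 : ∑ e ∈ range n, ((p.place f e).elim 0 fun q => MvPolynomial.C (f q.1 q.2) * φ q) =
      ∑ e ∈ range S.card, ((p.place f e).elim 0 fun q => MvPolynomial.C (f q.1 q.2) * φ q) := by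
    symm
    apply Finset.sum_subset (Finset.range_mono hcard)
    intro e _ he
    rw [Finset.mem_range] at he
    rw [hplace, dif_neg he]
    rfl
  rw [h1, h2, Finset.sum_range]
  have h3 : ∀ i : Fin S.card, ((p.place f i).elim 0 fun q => MvPolynomial.C (f q.1 q.2) * φ q) =
      MvPolynomial.C (f (S.equivFin.symm i).1.1 (S.equivFin.symm i).1.2) * φ (S.equivFin.symm i).1 := by
    intro i
    rw [hplace, dif_pos i.2]
    rfl
  rw [Finset.sum_congr rfl fun i _ => h3 i]
  rw [← Finset.sum_coe_sort S fun q => MvPolynomial.C (f q.1 q.2) * φ q]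
  exact Equiv.sum_comp S.equivFin.symm (fun q : S => MvPolynomial.C (f q.1.1 q.1.2) * φ q.1)

/-- package VAL -/
theorem t_VAL : S_VAL := by
  intro F V _ p hp d
  match d with
  | .inl (i3, k3, ⟨τ, i, J, j⟩) =>
    have h := place_sum p (p.a τ) (p.t τ ^ 2) (hp.nnz_a τ) (fun q => Par.ent (p.entA (q.1, i, i3) (q.2, j)))
    show p.valL i3 τ i j = _
    unfold Par.valL
    rw [← h]
    refine Finset.sum_congr rfl fun e _ => ?_
    show _ = (((p.place (p.a τ) e).elim (.const 0) fun q => .const (p.a τ q.1 q.2)) : Opd F V p.Item).eval p.val *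
      (((p.place (p.a τ) e).elim (.const 0) fun q => p.opd (p.entA (q.1, i, i3) (q.2, j))) : Opd F V p.Item).eval p.val
    cases p.place (p.a τ) e with
    | none => simp [Opd.eval]
    | some q =>
      simp only [Option.elim_some]
      rw [opd_eval]
      rfl
  | .inr (.inl (i3, k3, ⟨τ, k, I, j⟩)) =>
    have h := place_sum p (p.b τ) (p.t τ ^ 2) (hp.nnz_b τ) (fun q => Par.ent (p.entB (q.1, j) (q.2, k, k3)))
    show p.valR k3 τ k j = _
    unfold Par.valR
    rw [← h]
    refine Finset.sum_congr rfl fun e _ => ?_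
    show _ = (((p.place (p.b τ) e).elim (.const 0) fun q => .const (p.b τ q.1 q.2)) : Opd F V p.Item).eval p.val *
      (((p.place (p.b τ) e).elim (.const 0) fun q => p.opd (p.entB (q.1, j) (q.2, k, k3))) : Opd F V p.Item).eval p.val
    cases p.place (p.b τ) e with
    | none => simp [Opd.eval]
    | some q =>
      simp only [Option.elim_some]
      rw [opd_eval]
      rfl
  | .inr (.inr (.inl (i3, k3, τ, i, k))) =>
    have hk : k.val / p.t τ < p.m / p.t τ := Nat.div_lt_div_of_lt_of_dvd (hp.t_dvd τ) k.2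
    have hi : i.val / p.t τ < p.m / p.t τ := Nat.div_lt_div_of_lt_of_dvd (hp.t_dvd τ) i.2
    show p.valM i3 k3 τ i k = ∑ e ∈ range p.N, _
    unfold Par.valM
    rw [Finset.sum_range]
    refine Finset.sum_congr rfl fun j _ => ?_
    show _ = (if h : j.val < p.N ∧ k.val / p.t τ < p.m / p.t τ then
        (.ref (p.left i3 k3 τ i ⟨k.val / p.t τ, h.2⟩ ⟨j.val, h.1⟩) : Opd F V p.Item) else .const 0).eval p.val *
      (if h : j.val < p.N ∧ i.val / p.t τ < p.m / p.t τ then
        (.ref (p.right i3 k3 τ k ⟨i.val / p.t τ, h.2⟩ ⟨j.val, h.1⟩) : Opd F V p.Item) else .const 0).eval p.val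
    rw [dif_pos ⟨j.2, hk⟩, dif_pos ⟨j.2, hi⟩]
    rfl
  | .inr (.inr (.inr (i3, k3, (x, i), (z, k)))) =>
    show ∑ τ : Fin p.nT, MvPolynomial.C (p.c τ x z) * p.valM i3 k3 τ i k = ∑ e ∈ range p.nT, _
    rw [Finset.sum_range]
    refine Finset.sum_congr rfl fun τ _ => ?_
    show _ = (if h : τ.val < p.nT then (.const (p.c ⟨τ.val, h⟩ x z) : Opd F V p.Item) else .const 0).eval p.val *
      (if h : τ.val < p.nT then (.ref (p.mid i3 k3 ⟨τ.val, h⟩ i k) : Opd F V p.Item) else .const 0).eval p.val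
    rw [dif_pos τ.2, dif_pos τ.2]
    rfl

end Pool.Agent.U978.SP.VAL
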